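import Pool.Agent.Helper24_CON.HGrp

/-! Squad CON, module G_H8 (G_HALF 8). -/

namespace Pool.Agent.CON.H24

open Pool.Agent.CON

variable {M : Type} [AddCommGroup M] {b : M → M → ℤ}

theorem zsmul_left (h : PD b) (k : ℤ) (x y : M) : b (k • x) y = k * b x y := by
  induction k using Int.induction_on with
  | zero => rw [zero_smul, zero_left h, zero_mul]
  | succ i hi => rw [add_smul, one_smul, h.add_left, hi]; ring
  | pred i hi => rw [sub_smul, one_smul, sub_eq_add_neg, h.add_left, neg_left h, hi]; ring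

theorem zsmul_right (h : PD b) (k : ℤ) (x y : M) : b x (k • y) = k * b x y := by
  rw [h.symm, zsmul_left h, h.symm]

theorem sub_left (h : PD b) (x y z : M) : b (x - y) z = b x z - b y z := by
  rw [sub_eq_add_neg, h.add_left, neg_left h]; ring

theorem sub_right (h : PD b) (x y z : M) : b x (y - z) = b x y - b x z := by
  rw [h.symm, sub_left h, h.symm, h.symm z]

theorem sum_left (h : PD b) {ι : Type} (S : Finset ι) (f : ι → M) (y : M) :
    b (∑ i ∈ S, f i) y = ∑ i ∈ S, b (f i) y := by
  classical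
  induction S using Finset.induction_on with
  | empty => simp [zero_left h]
  | insert a S ha ih => rw [Finset.sum_insert ha, Finset.sum_insert ha, h.add_left, ih]

theorem sum_right (h : PD b) {ι : Type} (S : Finset ι) (f : ι → M) (y : M) :
    b y (∑ i ∈ S, f i) = ∑ i ∈ S, b y (f i) := by
  rw [h.symm, sum_left h]
  exact Finset.sum_congr rfl fun i _ => h.symm _ _

theorem eq_zero (h : PD b) {x : M} (hx : b x x = 0) : x = 0 := by
  by_contra hne
  have := h.pos x hne
  omega

/-- a half root with respect to eight vectors is in their span -/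
theorem half_span (h : PD b) {C : Set M} {s : ℤ} {F : Fin 8 → M} (hI : Irr b C s)
    (hF : DFr b C s 8 F) {α : M} (hα : α ∈ C) {ε : Fin 8 → ℤ} (hε : ∀ i, ε i = 1 ∨ ε i = -1)
    (hb : ∀ i, b α (F i) = ε i * s) : (4 : ℤ) • α = ∑ i, ε i • F i := by
  obtain ⟨hF1, hF2, -⟩ := hF
  have hε2 : ∀ i, ε i * ε i = 1 := by
    intro i
    rcases hε i with h | h <;> rw [h] <;> norm_num
  have hsf : ∀ i, b (∑ j, ε j • F j) (F i) = 4 * ε i * s := by
    intro i
    rw [sum_left h, Finset.sum_eq_single i]
    · rw [zsmul_left h, hF1]; ring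
    · intro j _ hj
      rw [zsmul_left h, hF2 j i hj, mul_zero]
    · simp
  have hss : b (∑ j, ε j • F j) (∑ j, ε j • F j) = 32 * s := by
    rw [sum_right h]
    have : ∀ i, b (∑ j, ε j • F j) (ε i • F i) = 4 * s := by
      intro i
      rw [zsmul_right h, hsf]
      linear_combination 4 * s * hε2 i
    simp only [this]
    simp; ring
  have hsa : b α (∑ j, ε j • F j) = 8 * s := by
    rw [sum_right h]
    have : ∀ i, b α (ε i • F i) = s := by
      intro i
      rw [zsmul_right h, hb]
      linear_combination s * hε2 i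
    simp only [this]
    simp
  have hw : b ((4 : ℤ) • α - ∑ i, ε i • F i) ((4 : ℤ) • α - ∑ i, ε i • F i) = 0 := by
    rw [sub_left h, sub_right h, sub_right h, zsmul_left h, zsmul_left h, zsmul_right h,
      zsmul_right h, hI.norm α hα, hsa, hss, h.symm _ α, hsa]
    ring
  exact sub_eq_zero.1 (eq_zero h hw)

/-- vectors with a multiple in the span of `k` vectors have rank at most `k` -/
theorem rk_le (h : PD b) {C : Set M} {k d : ℕ} (F : Fin k → M)
    (hC : ∀ α ∈ C, ∃ m : ℤ, m ≠ 0 ∧ m • α ∈ Submodule.span ℤ (Set.range F)) (hd : Rk C d) :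
    d ≤ k := by
  obtain ⟨c, hc, hli⟩ := hd
  choose! m hm0 hm using hC
  have hli2 : LinearIndependent ℤ (fun i => m (c i) • c i) := by
    rw [Fintype.linearIndependent_iff] at hli ⊢
    intro g hg i
    have h1 := hli (fun i => g i * m (c i)) (by simpa [mul_smul] using hg) i
    rcases mul_eq_zero.1 h1 with h2 | h2
    · exact h2
    · exact absurd h2 (hm0 _ (hc i))
  classical
  have := linearIndependent_le_span' (fun i => m (c i) • c i) hli2 (Set.range F) (by
    rintro _ ⟨i, rfl⟩
    exact hm _ (hc i))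
  rw [Cardinal.mk_fin, Nat.cast_le] at this
  have h2 := Fintype.card_range_le F
  rw [Fintype.card_fin] at h2
  omega

/-- G_H8 -/
theorem g_h8 (hE : G_EXT) (hT : G_TYP) (_ : G_FLP) : G_HALF 8 := by
  intro M _ b C s F α h hI hF hM hα hH hrk
  have key : ∀ β, (InD F β ∨ (β ∈ C ∧ Half b s F β)) →
      ∃ m : ℤ, m ≠ 0 ∧ m • β ∈ Submodule.span ℤ (Set.range F) := by
    rintro β (hβ | ⟨hβ, ε, h1, h2⟩)
    · obtain ⟨i, j, -, hij⟩ := hβ
      have hi : F i ∈ Submodule.span ℤ (Set.range F) := Submodule.subset_span ⟨i, rfl⟩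
      have hj : F j ∈ Submodule.span ℤ (Set.range F) := Submodule.subset_span ⟨j, rfl⟩
      refine ⟨2, by norm_num, ?_⟩
      rcases hij with h | h | h <;> rw [h]
      · exact add_mem hi hj
      · exact sub_mem hi hj
      · exact neg_mem (add_mem hi hj)
    · refine ⟨4, by norm_num, ?_⟩
      rw [half_span h hI hF hβ h1 h2]
      exact Submodule.sum_mem _ fun i _ => Submodule.smul_mem _ _ (Submodule.subset_span ⟨i, rfl⟩)
  have hD : {β | β ∈ C ∧ (InD F β ∨ Half b s F β)} = C := by
    refine hI.conn _ (fun β hβ => hβ.1) ⟨α, hα, Or.inr hH⟩ ?_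
    rintro β ⟨hβ, hβ2⟩ γ hγ hγ2
    have hγ3 : ∀ i, b γ (F i) = 0 := by
      rcases hT M b C s 8 F γ h hI (by norm_num) hF hγ with h1 | h1 | ⟨i0, h1, h2⟩ | ⟨-, h1⟩
      · exact h1
      · exact absurd ⟨hγ, Or.inl h1⟩ hγ2
      · exfalso
        obtain ⟨F', hF'⟩ := hE M b C s 8 F γ i0 h hI (by norm_num) hF hγ h1 h2
        exact hM 9 (by norm_num) F' hF'
      · exact absurd ⟨hγ, Or.inr h1⟩ hγ2
    have hsp : ∀ x ∈ Submodule.span ℤ (Set.range F), b x γ = 0 := by
      intro x hx
      induction hx using Submodule.span_induction with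
      | mem x hx =>
        obtain ⟨i, rfl⟩ := hx
        rw [h.symm]; exact hγ3 i
      | zero => exact zero_left h γ
      | add x y _ _ hx hy => rw [h.add_left, hx, hy, add_zero]
      | smul a x _ hx => rw [zsmul_left h, hx, mul_zero]
    obtain ⟨m, hm0, hm⟩ := key β (hβ2.imp id (fun h => ⟨hβ, h⟩))
    have h1 := hsp _ hm
    rw [zsmul_left h] at h1
    rcases mul_eq_zero.1 h1 with h2 | h2
    · exact absurd h2 hm0
    · exact h2
  have h9 := rk_le h F (fun β hβ => by
    rw [← hD] at hβ
    exact key β (hβ.2.imp id (fun h => ⟨hβ.1, h⟩))) hrk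
  omega

end Pool.Agent.CON.H24
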