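import Pool.Agent.Helper25_CON.Stmts

/-! Squad CON, module H_GRP: two disjoint capable groups of components. -/

namespace Pool.Agent.CON.H24

open Pool.Agent.CON

section basics

variable {M : Type} [AddCommGroup M] {b : M → M → ℤ}

theorem add_right (h : PD b) (x y z : M) : b x (y + z) = b x y + b x z := by
  rw [h.symm, h.add_left, h.symm y, h.symm z]

theorem zero_left (h : PD b) (x : M) : b 0 x = 0 := by
  have := h.add_left 0 0 x
  rw [add_zero] at this
  omega

theorem zero_right (h : PD b) (x : M) : b x 0 = 0 := by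
  rw [h.symm, zero_left h]

theorem neg_left (h : PD b) (x y : M) : b (-x) y = - b x y := by
  have := h.add_left (-x) x y
  rw [neg_add_cancel, zero_left h] at this
  omega

theorem neg_right (h : PD b) (x y : M) : b x (-y) = - b x y := by
  rw [h.symm, neg_left h, h.symm]

/-- closures of orthogonal sets are orthogonal -/
theorem orth_closure (h : PD b) {A B : Set M} (hAB : ∀ x ∈ A, ∀ y ∈ B, b x y = 0) :
    ∀ x ∈ AddSubgroup.closure A, ∀ y ∈ AddSubgroup.closure B, b x y = 0 := by
  intro x hx
  induction hx using AddSubgroup.closure_induction with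
  | mem x hx =>
    intro y hy
    induction hy using AddSubgroup.closure_induction with
    | mem y hy => exact hAB x hx y hy
    | zero => exact zero_right h x
    | add y z _ _ hy hz => rw [add_right h, hy, hz, add_zero]
    | neg y _ hy => rw [neg_right h, hy, neg_zero]
  | zero => intro y _; exact zero_left h y
  | add x z _ _ hx hz => intro y hy; rw [h.add_left, hx y hy, hz y hy, add_zero]
  | neg x _ hx => intro y hy; rw [neg_left h, hx y hy, neg_zero]

end basics

/-- H_GRP -/
theorem h_grp (hE : E_TWO) : H_GRP := by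
  intro M _ b k C s r T1 T2 hb hC hd h1 h2
  obtain ⟨x1, hx1, h41, z1, hz1, h21⟩ := h1
  obtain ⟨x2, hx2, h42, z2, hz2, h22⟩ := h2
  have hle : AddSubgroup.closure (⋃ i ∈ T2, C i) ≤
      AddSubgroup.closure (⋃ i ∈ {i | i ∉ T1}, C i) := by
    apply AddSubgroup.closure_mono
    apply Set.biUnion_mono _ (fun _ _ => le_rfl)
    intro i hi hi'
    exact (Finset.disjoint_left.1 hd hi') hi
  refine hE M b (AddSubgroup.closure (⋃ i ∈ T1, C i))
    (AddSubgroup.closure (⋃ i ∈ {i | i ∉ T1}, C i)) x1 x2 z1 z2 hb ?_ ?_ hx1 (hle hx2) hz1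
    (hle hz2) h41 h42 h21 h22
  · apply orth_closure hb
    intro x hx y hy
    simp only [Set.mem_iUnion] at hx hy
    obtain ⟨i, hi, hx⟩ := hx
    obtain ⟨j, hj, hy⟩ := hy
    exact hC.orth i j (by rintro rfl; exact hj hi) x hx y hy
  · rw [eq_top_iff]
    intro x _
    have hx := hC.gen x
    have hsub : AddSubgroup.closure (⋃ i, C i) ≤ AddSubgroup.closure (⋃ i ∈ T1, C i) ⊔
        AddSubgroup.closure (⋃ i ∈ {i | i ∉ T1}, C i) := by
      rw [AddSubgroup.closure_le]
      intro y hy
      obtain ⟨i, hi⟩ := Set.mem_iUnion.1 hy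
      by_cases hT : i ∈ T1
      · exact AddSubgroup.mem_sup_left (AddSubgroup.subset_closure
          (Set.mem_iUnion₂.2 ⟨i, hT, hi⟩))
      · exact AddSubgroup.mem_sup_right (AddSubgroup.subset_closure
          (Set.mem_iUnion₂.2 ⟨i, hT, hi⟩))
    exact hsub hx

end Pool.Agent.CON.H24
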